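import Pool.Agent.helper93.TV.Spec1

/-!
# Row tv:U2 (MP_29f1cd_al)
-/

set_option autoImplicit false

namespace Pool.Agent.helper93.TV

open BigOperators Finset Matrix

theorem U2 : U2_stmt := by
  intro I V _ _ _ _ D F hF
  have hsupp := hF.uf.conn.supp
  obtain ⟨M, hM⟩ : ∃ M : Matrix V V ℂ, ∀ α δ, M α δ = F α (D.rho (D.t α)) (D.rho (D.s2 α)) δ :=
    ⟨fun α δ => F α (D.rho (D.t α)) (D.rho (D.s2 α)) δ, fun _ _ => rfl⟩
  have hMs : ∀ α δ, M α δ ≠ 0 → D.s1 α = D.s1 δ ∧ D.s2 α = D.s2 δ ∧ D.t α = D.t δ := by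
    intro α δ h
    rw [hM] at h
    obtain ⟨⟨_, h2, h3, _, _, h6⟩, _⟩ := hsupp _ _ _ _ h
    rw [D.t_rho] at h2 h6
    exact ⟨h3, h2, h6⟩
  -- the only possible third vertex
  have hthird : ∀ α μ ρ, F α (D.rho (D.t α)) μ ρ ≠ 0 → μ = D.rho (D.s2 α) := by
    intro α μ ρ h
    obtain ⟨⟨_, _, _, h4, h5, _⟩, _⟩ := hsupp _ _ _ _ h
    rw [D.s2_rho] at h5
    rw [h4]
    exact D.rho_unique μ h5.symm
  have htri : ∀ a ν, F (D.rho a) (D.rho a) (D.lam D.o) ν = if D.rho a = ν then 1 else 0 := by
    intro a ν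
    have := hF.tri (D.rho a) ν
    rw [D.s1_rho, D.s2_rho] at this
    exact this
  have hMM : M * M = M := by
    ext α ζ
    have hp := hF.uf.pent α (D.rho (D.t α)) (D.rho (D.t α)) (D.lam D.o) (D.rho (D.s2 α)) ζ
    have hl : ∑ ν, F (D.rho (D.t α)) (D.rho (D.t α)) (D.lam D.o) ν * F α ν (D.rho (D.s2 α)) ζ =
        M α ζ := by
      simp_rw [htri]
      rw [Finset.sum_eq_single (D.rho (D.t α))]
      · rw [if_pos rfl, one_mul, hM]
      · intro ν _ hν
        rw [if_neg (Ne.symm hν), zero_mul]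
      · intro h
        exact absurd (mem_univ _) h
    have hr : ∑ μ, ∑ ρ, ∑ σ, F α (D.rho (D.t α)) μ ρ * F ρ (D.rho (D.t α)) σ ζ *
        F μ σ (D.lam D.o) (D.rho (D.s2 α)) = ∑ ρ, M α ρ * M ρ ζ := by
      rw [Finset.sum_eq_single (D.rho (D.s2 α))]
      · refine Finset.sum_congr rfl fun ρ _ => ?_
        rw [Finset.sum_eq_single (D.rho (D.s2 α))]
        · rw [htri, if_pos rfl, mul_one, ← hM]
          by_cases h0 : M α ρ = 0
          · rw [h0, zero_mul, zero_mul]
          · obtain ⟨_, h2, h3⟩ := hMs _ _ h0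
            rw [hM ρ ζ, ← h3, ← h2]
        · intro σ _ hσ
          have : F (D.rho (D.s2 α)) σ (D.lam D.o) (D.rho (D.s2 α)) = 0 := by
            by_contra hne
            obtain ⟨⟨h1, _, _, _, h5, _⟩, _⟩ := hsupp _ _ _ _ hne
            rw [D.t_rho] at h1
            rw [D.s2_lam] at h5
            apply hσ
            rw [h1]
            exact D.rho_unique σ h5
          rw [this, mul_zero]
        · intro h
          exact absurd (mem_univ _) h
      · intro μ _ hμ
        refine Finset.sum_eq_zero fun ρ _ => Finset.sum_eq_zero fun σ _ => ?_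
        have : F α (D.rho (D.t α)) μ ρ = 0 := by
          by_contra hne
          exact hμ (hthird _ _ _ hne)
        rw [this, zero_mul, zero_mul]
      · intro h
        exact absurd (mem_univ _) h
    rw [hl, hr] at hp
    rw [Matrix.mul_apply]
    exact hp.symm
  have hU : M * Mᴴ = 1 := by
    ext α α₁
    rw [Matrix.mul_apply, Matrix.one_apply]
    have hrow := hF.uf.conn.row α (D.rho (D.t α)) α₁ (D.rho (D.t α₁)) (D.s1_rho _).symm
      (mem_univ _) (mem_univ _)
    have hl : ∑ e', ∑ l', F α (D.rho (D.t α)) e' l' * star (F α₁ (D.rho (D.t α₁)) e' l') =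
        ∑ l', M α l' * Mᴴ l' α₁ := by
      rw [Finset.sum_eq_single (D.rho (D.s2 α))]
      · refine Finset.sum_congr rfl fun l' _ => ?_
        rw [← hM, Matrix.conjTranspose_apply]
        by_cases h0 : M α l' = 0
        · rw [h0, zero_mul, zero_mul]
        · obtain ⟨_, h2, _⟩ := hMs _ _ h0
          by_cases hs : D.s2 α₁ = D.s2 α
          · rw [hM α₁ l', hs]
          · have e1 : F α₁ (D.rho (D.t α₁)) (D.rho (D.s2 α)) l' = 0 := by
              by_contra hne
              obtain ⟨⟨_, _, _, h4, _, _⟩, _⟩ := hsupp _ _ _ _ hne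
              rw [D.s1_rho] at h4
              exact hs h4
            have e2 : M α₁ l' = 0 := by
              by_contra hne
              obtain ⟨_, h2', _⟩ := hMs _ _ hne
              exact hs (h2'.trans h2.symm)
            rw [e1, e2]
      · intro μ _ hμ
        refine Finset.sum_eq_zero fun l' _ => ?_
        have : F α (D.rho (D.t α)) μ l' = 0 := by
          by_contra hne
          exact hμ (hthird _ _ _ hne)
        rw [this, zero_mul]
      · intro h
        exact absurd (mem_univ _) h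
    rw [← hl, hrow]
    by_cases h : α = α₁
    · subst h
      simp
    · rw [if_neg (fun h' => h h'.1), if_neg h]
  have h1 : M = 1 := by
    calc M = M * (M * Mᴴ) := by rw [hU, Matrix.mul_one]
      _ = (M * M) * Mᴴ := (Matrix.mul_assoc _ _ _).symm
      _ = M * Mᴴ := by rw [hMM]
      _ = 1 := hU
  intro α δ
  rw [← hM, h1, Matrix.one_apply]

end Pool.Agent.helper93.TV
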