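import Pool.Agent.helper93.TV.Spec2

/-! Row FP: a compatible family is determined by its value at the unit object. -/

namespace Pool.Agent.helper93.TV

open BigOperators Finset Matrix

variable {I V : Type} [Fintype I] [DecidableEq I] [Fintype V] [DecidableEq V]

theorem FP_iter (hTU : TU_out) (D : FD I V) (X : Finset I) (c : V → V → V → V → ℂ)
    (hc : D.Conn X c) (n n' : ℕ) (ψ : I → List V → List V → ℂ) (hψ : D.Fam X c n n' ψ)
    (k : ℕ) : ∀ b p q, D.iter X c n n' (ψ D.o) k b p q = (D.cnt X k b : ℂ) * ψ b p q := by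
  induction k with
  | zero =>
    intro b p q
    simp only [FD.iter, FD.cnt]
    by_cases hb : b = D.o
    · subst hb
      simp
    · simp [hb]
  | succ k ih =>
    intro b p q
    have hstep : D.iter X c n n' (ψ D.o) (k + 1) b p q =
        ∑ l ∈ univ.filter (fun l => D.s1 l ∈ X ∧ D.t l = b),
          ∑ p' ∈ lists V n, ∑ q' ∈ lists V n', ∑ l',
            tp c l p p' l' * ((D.cnt X k (D.s2 l) : ℂ) * ψ (D.s2 l) p' q') *
              star (tp c l q q' l') := by
      simp only [FD.iter, FD.step, ih]
    rw [hstep]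
    by_cases hp : p ∈ lists V n
    swap
    · have h0 : ψ b p q = 0 := by
        by_contra h
        exact hp (hψ.supp b p q h).1
      rw [h0, mul_zero]
      refine Finset.sum_eq_zero fun l _ => Finset.sum_eq_zero fun p' hp' =>
        Finset.sum_eq_zero fun q' _ => Finset.sum_eq_zero fun l' _ => ?_
      have : tp c l p p' l' = 0 := by
        by_contra h
        apply hp
        rw [mem_lists] at hp' ⊢
        rw [tp_length c l l' p p' h, hp']
      rw [this, zero_mul, zero_mul]
    by_cases hq : q ∈ lists V n'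
    swap
    · have h0 : ψ b p q = 0 := by
        by_contra h
        exact hq (hψ.supp b p q h).2.1
      rw [h0, mul_zero]
      refine Finset.sum_eq_zero fun l _ => Finset.sum_eq_zero fun p' _ =>
        Finset.sum_eq_zero fun q' hq' => Finset.sum_eq_zero fun l' _ => ?_
      have : tp c l q q' l' = 0 := by
        by_contra h
        apply hq
        rw [mem_lists] at hq' ⊢
        rw [tp_length c l l' q q' h, hq']
      rw [this, star_zero, mul_zero]
    have hcnt : (D.cnt X (k + 1) b : ℂ) =
        ∑ l ∈ univ.filter (fun l => D.s1 l ∈ X ∧ D.t l = b), (D.cnt X k (D.s2 l) : ℂ) := by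
      simp only [FD.cnt]
      push_cast
      rfl
    rw [hcnt, Finset.sum_mul]
    refine Finset.sum_congr rfl fun l hl => ?_
    rw [mem_filter] at hl
    obtain ⟨_, hlX, hlb⟩ := hl
    -- reorganise
    have e1 : ∑ p' ∈ lists V n, ∑ q' ∈ lists V n', ∑ l',
            tp c l p p' l' * ((D.cnt X k (D.s2 l) : ℂ) * ψ (D.s2 l) p' q') *
              star (tp c l q q' l') =
        (D.cnt X k (D.s2 l) : ℂ) * ∑ q' ∈ lists V n', ∑ l',
          (∑ p' ∈ lists V n, tp c l p p' l' * ψ (D.s2 l) p' q') * star (tp c l q q' l') := by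
      rw [Finset.sum_comm, Finset.mul_sum]
      refine Finset.sum_congr rfl fun q' _ => ?_
      rw [Finset.sum_comm, Finset.mul_sum]
      refine Finset.sum_congr rfl fun l' _ => ?_
      rw [Finset.sum_mul, Finset.mul_sum]
      refine Finset.sum_congr rfl fun p' _ => ?_
      ring
    rw [e1]
    congr 1
    have e2 : ∑ q' ∈ lists V n', ∑ l',
          (∑ p' ∈ lists V n, tp c l p p' l' * ψ (D.s2 l) p' q') * star (tp c l q q' l') =
        ∑ q' ∈ lists V n', ∑ l',
          (∑ q'' ∈ lists V n', ψ (D.t l) p q'' * tp c l q'' q' l') * star (tp c l q q' l') := by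
      refine Finset.sum_congr rfl fun q' hq' => Finset.sum_congr rfl fun l' _ => ?_
      rw [hψ.fl l p q' l' hlX hp hq']
    rw [e2]
    have e3 : ∑ q' ∈ lists V n', ∑ l',
          (∑ q'' ∈ lists V n', ψ (D.t l) p q'' * tp c l q'' q' l') * star (tp c l q q' l') =
        ∑ q'' ∈ lists V n', ψ (D.t l) p q'' *
          ∑ q' ∈ lists V n', ∑ l', tp c l q'' q' l' * star (tp c l q q' l') := by
      simp only [Finset.mul_sum]
      rw [Finset.sum_comm (s := lists V n') (t := lists V n')
        (f := fun q'' q' => ∑ l', ψ (D.t l) p q'' * (tp c l q'' q' l' * star (tp c l q q' l')))]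
      refine Finset.sum_congr rfl fun q' _ => ?_
      rw [Finset.sum_comm (s := lists V n') (t := univ)
        (f := fun q'' l' => ψ (D.t l) p q'' * (tp c l q'' q' l' * star (tp c l q q' l')))]
      refine Finset.sum_congr rfl fun l' _ => ?_
      rw [Finset.sum_mul]
      refine Finset.sum_congr rfl fun q'' _ => ?_
      ring
    rw [e3]
    have e4 : ∀ q'' ∈ lists V n', ψ (D.t l) p q'' *
          ∑ q' ∈ lists V n', ∑ l', tp c l q'' q' l' * star (tp c l q q' l') =
        if q'' = q then ψ (D.t l) p q else 0 := by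
      intro q'' hq''
      by_cases h : ψ (D.t l) p q'' = 0
      · rw [h, zero_mul]
        split_ifs with h1
        · rw [← h1, h]
        · rfl
      · obtain ⟨_, _, _, hok, _⟩ := hψ.supp _ _ _ h
        rw [(hTU I V D X c hc n').1 l q'' l q hlX hq'' hq hok]
        by_cases h1 : q'' = q
        · subst h1
          simp
        · simp [h1]
    rw [Finset.sum_congr rfl e4, Finset.sum_ite_eq' (lists V n') q, if_pos hq, hlb]

theorem FP : FP_stmt := by
  intro hTU I V _ _ _ _ D X c hc m hm n n' ψ hψ
  funext b p q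
  unfold FD.Phi
  rw [FP_iter hTU D X c hc n n' ψ hψ m b p q]
  have : (D.cnt X m b : ℂ) ≠ 0 := Nat.cast_ne_zero.mpr (hm b)
  rw [mul_div_cancel_left₀ _ this]

end Pool.Agent.helper93.TV
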