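import Pool.Agent.helper93.TV.Spec3

/-! Row MO: two categories with the same fusion ring live on the same types. -/

namespace Pool.Agent.helper93.TV

open BigOperators Finset

theorem MO_equiv {α β γ : Type} [Fintype α] [Fintype β] [DecidableEq γ]
    (f : α → γ) (g : β → γ)
    (h : ∀ c, (univ.filter fun a => f a = c).card = (univ.filter fun b => g b = c).card) :
    ∃ e : α ≃ β, ∀ a, g (e a) = f a := by
  have h2 : ∀ c, Nonempty ({ a // f a = c } ≃ { b // g b = c }) := by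
    intro c
    apply Fintype.card_eq.mp
    rw [Fintype.card_subtype, Fintype.card_subtype]
    exact h c
  refine ⟨Equiv.ofFiberEquiv (fun c => (h2 c).some), fun a => ?_⟩
  exact Equiv.ofFiberEquiv_map _ a

theorem MO_core (r n n' : ℕ) (s1 s2 t : Fin n → Fin r) (F : Fin n → Fin n → Fin n → Fin n → ℂ)
    (s1' s2' t' : Fin n' → Fin r) (F' : Fin n' → Fin n' → Fin n' → Fin n' → ℂ)
    (o : Fin r) (d : Fin r → Fin r) (D : FD (Fin r) (Fin n))
    (hC : (SkelCat.mk r n s1 s2 t F).IsUFC o d) (hs1 : D.s1 = s1) (hs2 : D.s2 = s2)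
    (ht : D.t = t) (ho : D.o = o) (hd : D.du = d)
    (o' : Fin r) (d' : Fin r → Fin r)
    (hC' : (SkelCat.mk r n' s1' s2' t' F').IsUFC o' d')
    (hm : (SkelCat.mk r n' s1' s2' t' F').mult = (SkelCat.mk r n s1 s2 t F).mult) :
    ∃ F'', D.UFS F'' ∧ Mod (SkelCat.mk r n' s1' s2' t' F') D F'' := by
  have hoo : o' = o := by
    have h1 := hC.unit_left o' o
    have h2 := hC'.unit_right o o
    rw [hm] at h2
    have h3 : (SkelCat.mk r n s1 s2 t F).mult o o' o = 1 := by
      rw [h2, if_pos rfl]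
    rw [h3] at h1
    by_contra hne
    rw [if_neg hne] at h1
    exact one_ne_zero h1
  subst hoo
  have hdd : d' = d := by
    funext a
    have h1 := hC.dual a (d' a)
    have h2 := hC'.dual a (d' a)
    rw [hm, if_pos rfl] at h2
    rw [h2] at h1
    by_contra hne
    rw [if_neg hne] at h1
    exact one_ne_zero h1
  subst hdd
  obtain ⟨e, he⟩ := MO_equiv (fun v : Fin n' => (s1' v, s2' v, t' v))
    (fun v : Fin n => (s1 v, s2 v, t v)) (by
      rintro ⟨a, b, c⟩
      have h := congrFun (congrFun (congrFun hm a) b) c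
      simp only [SkelCat.mult] at h
      have e1 : ∀ v : Fin n', ((s1' v, s2' v, t' v) = (a, b, c)) ↔
          (s1' v = a ∧ s2' v = b ∧ t' v = c) := by
        intro v
        simp [Prod.ext_iff]
      have e2 : ∀ v : Fin n, ((s1 v, s2 v, t v) = (a, b, c)) ↔
          (s1 v = a ∧ s2 v = b ∧ t v = c) := by
        intro v
        simp [Prod.ext_iff]
      simp only [e1, e2]
      exact h)
  have he1 : ∀ v, s1 (e v) = s1' v := fun v => congrArg Prod.fst (he v)
  have he2 : ∀ v, s2 (e v) = s2' v := fun v => congrArg (fun x => x.2.1) (he v)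
  have he3 : ∀ v, t (e v) = t' v := fun v => congrArg (fun x => x.2.2) (he v)
  have g1 : ∀ v, s1' (e.symm v) = s1 v := fun v => by rw [← he1, e.apply_symm_apply]
  have g2 : ∀ v, s2' (e.symm v) = s2 v := fun v => by rw [← he2, e.apply_symm_apply]
  have g3 : ∀ v, t' (e.symm v) = t v := fun v => by rw [← he3, e.apply_symm_apply]
  have hsum : ∀ f : Fin n' → ℂ, ∑ v, f (e.symm v) = ∑ v, f v := fun f =>
    Equiv.sum_comp e.symm f
  refine ⟨fun α γ β δ => F' (e.symm α) (e.symm γ) (e.symm β) (e.symm δ), ⟨⟨⟨?_, ?_, ?_⟩, ?_⟩,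
    ?_, ?_⟩, ⟨Equiv.refl _, e, ?_, ?_, ?_, ?_⟩⟩
  · intro l x x' l' h
    have h' := hC'.supp _ _ _ _ h
    simp only [g1, g2, g3] at h'
    refine ⟨?_, mem_univ _, mem_univ _⟩
    unfold FD.cp
    rw [hs1, hs2, ht]
    exact h'
  · intro l x l₁ x₁ h _ _
    have h' := hC'.row (e.symm l) (e.symm x) (e.symm l₁) (e.symm x₁) (by
      show t' (e.symm l) = s1' (e.symm x)
      rw [g3, g1, ← hs1, ← ht]
      exact h)
    simp only [EmbeddingLike.apply_eq_iff_eq] at h'
    rw [← h']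
    show ∑ x', ∑ l', F' (e.symm l) (e.symm x) (e.symm x') (e.symm l') *
        star (F' (e.symm l₁) (e.symm x₁) (e.symm x') (e.symm l')) =
      ∑ β, ∑ δ, F' (e.symm l) (e.symm x) β δ * star (F' (e.symm l₁) (e.symm x₁) β δ)
    rw [← hsum (fun β => ∑ δ, F' (e.symm l) (e.symm x) β δ *
      star (F' (e.symm l₁) (e.symm x₁) β δ))]
    refine Finset.sum_congr rfl fun x' _ => ?_
    rw [← hsum (fun δ => F' (e.symm l) (e.symm x) (e.symm x') δ *
      star (F' (e.symm l₁) (e.symm x₁) (e.symm x') δ))]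
  · intro x' l' x₁ l₁ h _ _
    have h' := hC'.col (e.symm x') (e.symm l') (e.symm x₁) (e.symm l₁) (by
      show t' (e.symm x') = s2' (e.symm l')
      rw [g3, g2, ← hs2, ← ht]
      exact h)
    simp only [EmbeddingLike.apply_eq_iff_eq] at h'
    rw [← h']
    show ∑ l, ∑ x, star (F' (e.symm l) (e.symm x) (e.symm x') (e.symm l')) *
        F' (e.symm l) (e.symm x) (e.symm x₁) (e.symm l₁) =
      ∑ α, ∑ γ, star (F' α γ (e.symm x') (e.symm l')) * F' α γ (e.symm x₁) (e.symm l₁)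
    rw [← hsum (fun α => ∑ γ, star (F' α γ (e.symm x') (e.symm l')) *
      F' α γ (e.symm x₁) (e.symm l₁))]
    refine Finset.sum_congr rfl fun l _ => ?_
    rw [← hsum (fun γ => star (F' (e.symm l) γ (e.symm x') (e.symm l')) *
      F' (e.symm l) γ (e.symm x₁) (e.symm l₁))]
  · intro α γ ε β δ ζ
    have h' := hC'.pentagon (e.symm α) (e.symm γ) (e.symm ε) (e.symm β) (e.symm δ) (e.symm ζ)
    show ∑ ν, F' (e.symm γ) (e.symm ε) (e.symm β) (e.symm ν) *
        F' (e.symm α) (e.symm ν) (e.symm δ) (e.symm ζ) =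
      ∑ μ, ∑ ρ, ∑ σ, F' (e.symm α) (e.symm γ) (e.symm μ) (e.symm ρ) *
        F' (e.symm ρ) (e.symm ε) (e.symm σ) (e.symm ζ) *
        F' (e.symm μ) (e.symm σ) (e.symm β) (e.symm δ)
    rw [hsum (fun ν => F' (e.symm γ) (e.symm ε) (e.symm β) ν *
        F' (e.symm α) ν (e.symm δ) (e.symm ζ)),
      hsum (fun μ => ∑ ρ, ∑ σ, F' (e.symm α) (e.symm γ) μ (e.symm ρ) *
        F' (e.symm ρ) (e.symm ε) (e.symm σ) (e.symm ζ) *
        F' μ (e.symm σ) (e.symm β) (e.symm δ))]
    refine Eq.trans h' ?_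
    refine Finset.sum_congr rfl fun μ _ => ?_
    show ∑ ρ, ∑ σ, F' (e.symm α) (e.symm γ) μ ρ * F' ρ (e.symm ε) σ (e.symm ζ) *
        F' μ σ (e.symm β) (e.symm δ) = _
    rw [hsum (fun ρ => ∑ σ, F' (e.symm α) (e.symm γ) μ ρ *
        F' ρ (e.symm ε) (e.symm σ) (e.symm ζ) * F' μ (e.symm σ) (e.symm β) (e.symm δ))]
    refine Finset.sum_congr rfl fun ρ _ => ?_
    rw [hsum (fun σ => F' (e.symm α) (e.symm γ) μ ρ *
        F' ρ (e.symm ε) σ (e.symm ζ) * F' μ σ (e.symm β) (e.symm δ))]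
  · intro γ δ
    have h' := hC'.triangle (e.symm (D.rho (D.s1 γ))) (e.symm (D.lam (D.s2 γ))) (e.symm γ)
      (e.symm δ) (by
        show s2' _ = _
        rw [g2, ← hs2, D.s2_rho, ho]) (by
        show s1' _ = _
        rw [g1, ← hs1, D.s1_lam, ho]) (by
        show s1' _ = s1' _
        rw [g1, g1, ← hs1, D.s1_rho]) (by
        show s2' _ = s2' _
        rw [g2, g2, ← hs2, D.s2_lam])
    simp only [EmbeddingLike.apply_eq_iff_eq] at h'
    exact h'
  · intro a
    exact hC'.rigid a (e.symm (D.eta a)) (e.symm (D.lam a)) (e.symm (D.eta (D.du a)))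
      (e.symm (D.rho a)) (by
        show s1' _ = _
        rw [g1, ← hs1, D.s1_eta]) (by
        show t' _ = _
        rw [g3, ← ht, D.t_eta, ho]) (by
        show s1' _ = _
        rw [g1, ← hs1, D.s1_lam, ho]) (by
        show s2' _ = _
        rw [g2, ← hs2, D.s2_lam]) (by
        show s1' _ = _
        rw [g1, ← hs1, D.s1_eta, hd]) (by
        show t' _ = _
        rw [g3, ← ht, D.t_eta, ho]) (by
        show s1' _ = _
        rw [g1, ← hs1, D.s1_rho]) (by
        show s2' _ = _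
        rw [g2, ← hs2, D.s2_rho, ho])
  · intro v
    rw [hs1]
    exact he1 v
  · intro v
    rw [hs2]
    exact he2 v
  · intro v
    rw [ht]
    exact he3 v
  · intro α γ β δ
    simp only [Equiv.symm_apply_apply]

theorem MO : MO_stmt := by
  intro C C' o d D hC hs1 hs2 ht ho hd hC' hring
  obtain ⟨r, n, s1, s2, t, F⟩ := C
  obtain ⟨r', n', s1', s2', t', F'⟩ := C'
  have h1 : r' = r := congrArg Sigma.fst hring
  subst h1
  have h2 : (SkelCat.mk r' n' s1' s2' t' F').mult = (SkelCat.mk r' n s1 s2 t F).mult :=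
    eq_of_heq (Sigma.mk.inj_iff.mp hring).2
  obtain ⟨o', d', hC'⟩ := hC'
  exact MO_core r' n n' s1 s2 t F s1' s2' t' F' o d D hC hs1 hs2 ht ho hd o' d' hC' h2

end Pool.Agent.helper93.TV
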